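import Mathlib

/-!
# A dense plastic subgroup of the `ℓ₁` plane

There is a dense subgroup `G` of the plane such that every map `G → G` which is
non-expansive for the `ℓ₁` metric is constant, a translation, or a point reflection.
In particular `(G, d₁)` is plastic.
-/

open Set Cardinal MeasureTheory

namespace Pool.Agent.Results.MP_f81d0d_gt.LOnePlane

/-- The `ℓ₁` distance of the plane. -/
def d1 (u v : ℝ × ℝ) : ℝ := |u.1 - v.1| + |u.2 - v.2|

/-! ### Lipschitz functions of a real variable -/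

lemma const_of_ae {h : ℝ → ℝ} {C : NNReal} (hL : LipschitzWith C h)
    (h0 : ∀ᵐ t, HasDerivAt h 0 t) (a b : ℝ) : h a = h b := by
  have h1 : AbsolutelyContinuousOnInterval h a b :=
    (hL.lipschitzOnWith (s := uIcc a b)).absolutelyContinuousOnInterval
  obtain ⟨c, hc⟩ := h1.const_of_ae_hasDerivAt_zero (h0.mono fun t ht _ => ht)
  rw [hc a left_mem_uIcc, hc b right_mem_uIcc]

/-- `f` has a.e. derivative in `ℤ v` on every line of direction `v`. -/
def Tame (f : ℝ × ℝ → ℝ × ℝ) : Prop :=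
  ∀ x v : ℝ × ℝ, ∀ᵐ t : ℝ, ∃ n : ℤ, HasDerivAt (fun t : ℝ => f (x + t • v)) ((n : ℝ) • v) t

lemma lip_line {f : ℝ × ℝ → ℝ × ℝ} {C : NNReal} (hf : LipschitzWith C f) (x v : ℝ × ℝ) :
    LipschitzWith (C * ‖v‖₊) (fun t : ℝ => f (x + t • v)) := by
  have h1 : LipschitzWith ‖v‖₊ (fun t : ℝ => x + t • v) := by
    apply LipschitzWith.of_dist_le_mul
    intro s t
    rw [dist_add_left, dist_eq_norm, ← sub_smul, norm_smul, dist_eq_norm, coe_nnnorm]
    exact le_of_eq (mul_comm _ _)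
  exact hf.comp h1

lemma parallel {f : ℝ × ℝ → ℝ × ℝ} {C : NNReal} (hf : LipschitzWith C f) (hT : Tame f)
    (x y : ℝ × ℝ) :
    (y.2 - x.2) * ((f y).1 - (f x).1) = (y.1 - x.1) * ((f y).2 - (f x).2) := by
  set v : ℝ × ℝ := y - x with hv
  set h : ℝ → ℝ := fun t => v.2 * (f (x + t • v)).1 - v.1 * (f (x + t • v)).2 with hh
  have hg := lip_line hf x v
  have h1 : ∃ C' : NNReal, LipschitzWith C' h := by
    refine ⟨‖v.2‖₊ * (C * ‖v‖₊) + ‖v.1‖₊ * (C * ‖v‖₊), ?_⟩
    apply LipschitzWith.of_dist_le_mul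
    intro s t
    have h2 := hg.dist_le_mul s t
    rw [Prod.dist_eq] at h2
    have h3 := le_trans (le_max_left _ _) h2
    have h4 := le_trans (le_max_right _ _) h2
    rw [Real.dist_eq] at h3 h4 ⊢
    simp only [hh]
    have e : v.2 * (f (x + s • v)).1 - v.1 * (f (x + s • v)).2
        - (v.2 * (f (x + t • v)).1 - v.1 * (f (x + t • v)).2)
        = v.2 * ((f (x + s • v)).1 - (f (x + t • v)).1)
          - v.1 * ((f (x + s • v)).2 - (f (x + t • v)).2) := by ring
    rw [e]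
    refine (abs_sub _ _).trans ?_
    rw [abs_mul, abs_mul]
    push_cast
    rw [Real.norm_eq_abs, Real.norm_eq_abs]
    rw [NNReal.coe_mul, coe_nnnorm] at h3 h4
    rw [add_mul, mul_assoc, mul_assoc |v.1|]
    exact add_le_add (mul_le_mul_of_nonneg_left h3 (abs_nonneg _))
      (mul_le_mul_of_nonneg_left h4 (abs_nonneg _))
  obtain ⟨C', hC'⟩ := h1
  have h2 : ∀ᵐ t, HasDerivAt h 0 t := by
    filter_upwards [hT x v] with t ht
    obtain ⟨n, hn⟩ := ht
    have a1 : HasDerivAt (fun t : ℝ => (f (x + t • v)).1) (((n : ℝ) • v).1) t :=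
      (ContinuousLinearMap.fst ℝ ℝ ℝ).hasFDerivAt.comp_hasDerivAt t hn
    have a2 : HasDerivAt (fun t : ℝ => (f (x + t • v)).2) (((n : ℝ) • v).2) t :=
      (ContinuousLinearMap.snd ℝ ℝ ℝ).hasFDerivAt.comp_hasDerivAt t hn
    have a3 := (a1.const_mul v.2).sub (a2.const_mul v.1)
    have e : v.2 * ((n : ℝ) • v).1 - v.1 * ((n : ℝ) • v).2 = 0 := by
      simp only [Prod.smul_fst, Prod.smul_snd, smul_eq_mul]; ring
    rw [e] at a3
    exact a3
  have h3 := const_of_ae hC' h2 0 1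
  simp only [hh, zero_smul, add_zero, one_smul] at h3
  have e1 : x + v = y := by rw [hv]; abel
  rw [e1] at h3
  have e2 : v.1 = y.1 - x.1 := by rw [hv]; rfl
  have e3 : v.2 = y.2 - x.2 := by rw [hv]; rfl
  rw [e2, e3] at h3
  linarith

lemma tame_affine {f : ℝ × ℝ → ℝ × ℝ} {C : NNReal} (hf : LipschitzWith C f) (hT : Tame f) :
    ∃ (n : ℤ) (d : ℝ × ℝ), ∀ x, f x = (n : ℝ) • x + d := by
  set d := f 0 with hd
  set c := (f (1, 0)).1 - d.1 with hc
  have hp := parallel hf hT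
  have h10 : (f (1, 0)).2 - d.2 = 0 := by
    have := hp 0 (1, 0)
    simpa using this.symm
  have hx : ∀ x : ℝ × ℝ, x.2 ≠ 0 → f x = c • x + d := by
    intro x hx
    have a1 := hp 0 x
    have a2 := hp (1, 0) x
    simp only [Prod.fst_zero, Prod.snd_zero, sub_zero, ← hd] at a1 a2
    -- coordinates
    set p := (f x).1 - d.1 with hp1
    set q := (f x).2 - d.2 with hq1
    have a3 : x.2 * (p - c) = (x.1 - 1) * q := by
      have e1 : (f x).1 - (f (1, 0)).1 = p - c := by rw [hp1, hc]; ring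
      have e2 : (f x).2 - (f (1, 0)).2 = q := by rw [hq1]; linarith
      rw [e1, e2] at a2
      linarith
    have a4 : q = c * x.2 := by
      have : x.2 * p = x.1 * q := a1
      nlinarith
    have a5 : p = c * x.1 := by
      have : x.2 * p = x.1 * q := a1
      rw [a4] at this
      have h2 : x.2 * (p - c * x.1) = 0 := by linarith
      rcases mul_eq_zero.1 h2 with h | h
      · exact absurd h hx
      · linarith
    ext
    · simp only [Prod.fst_add, Prod.smul_fst, smul_eq_mul]; linarith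
    · simp only [Prod.snd_add, Prod.smul_snd, smul_eq_mul]; linarith
  have hall : ∀ x : ℝ × ℝ, f x = c • x + d := by
    have e : f = fun x => c • x + d := by
      refine Continuous.ext_on (s := {x : ℝ × ℝ | x.2 ≠ 0}) ?_ hf.continuous (by fun_prop) hx
      have : Dense ({x : ℝ × ℝ | x.2 ≠ 0}) := by
        have h1 : Dense ((Prod.snd : ℝ × ℝ → ℝ) ⁻¹' ({0}ᶜ : Set ℝ)) :=
          (dense_compl_singleton (0 : ℝ)).preimage isOpenMap_snd
        exact h1
      exact this
    intro x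
    exact congrFun e x
  -- `c` is an integer
  have h1 : ∃ t : ℝ, ∃ n : ℤ,
      HasDerivAt (fun t : ℝ => f ((0 : ℝ × ℝ) + t • ((1, 0) : ℝ × ℝ)))
        ((n : ℝ) • ((1, 0) : ℝ × ℝ)) t := (hT 0 (1, 0)).exists
  obtain ⟨t, n, hn⟩ := h1
  refine ⟨n, d, fun x => ?_⟩
  have h2 : HasDerivAt (fun t : ℝ => f ((0 : ℝ × ℝ) + t • ((1, 0) : ℝ × ℝ)))
      (c • ((1, 0) : ℝ × ℝ)) t := by
    have e : (fun t : ℝ => f ((0 : ℝ × ℝ) + t • ((1, 0) : ℝ × ℝ)))
        = fun t : ℝ => t • (c • ((1, 0) : ℝ × ℝ)) + d := by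
      funext t
      rw [hall, zero_add, smul_comm]
    rw [e]
    have := ((hasDerivAt_id t).smul_const (c • ((1, 0) : ℝ × ℝ))).add_const d
    simpa using this
  have h3 := hn.unique h2
  have h4 := congrArg Prod.fst h3
  simp at h4
  rw [hall, h4]

/-- The escaping points of a line. -/
lemma escape {f : ℝ × ℝ → ℝ × ℝ} {C : NNReal} (hf : LipschitzWith C f) (hT : ¬ Tame f) :
    ∃ (x v : ℝ × ℝ) (A : Set ℝ), v ≠ 0 ∧ #A = Cardinal.continuum ∧
      ∀ (n : ℤ) (h : ℝ × ℝ), {t ∈ A | f (x + t • v) = h + n • (x + t • v)}.Countable := by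
  have hT' : ∃ x v : ℝ × ℝ, ¬ ∀ᵐ t : ℝ, ∃ n : ℤ,
      HasDerivAt (fun t : ℝ => f (x + t • v)) ((n : ℝ) • v) t := by
    by_contra hcon
    push Not at hcon
    exact hT fun x v => by simpa using hcon x v
  obtain ⟨x, v, hxv⟩ := hT'
  set g : ℝ → ℝ × ℝ := fun t => f (x + t • v) with hg
  have hgL := lip_line hf x v
  set A : Set ℝ := {t | DifferentiableAt ℝ g t ∧ ∀ n : ℤ, deriv g t ≠ (n : ℝ) • v} with hA
  have hAm : MeasurableSet A := by
    have e : A = {t | DifferentiableAt ℝ g t} ∩ ⋂ n : ℤ, (deriv g) ⁻¹' {((n : ℝ) • v)}ᶜ := by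
      ext t
      simp [hA]
    rw [e]
    refine (measurableSet_of_differentiableAt ℝ g).inter (MeasurableSet.iInter fun n => ?_)
    exact measurable_deriv g (MeasurableSet.singleton _).compl
  have hAnc : ¬ A.Countable := by
    intro hc
    apply hxv
    have h1 : volume A = 0 := hc.measure_zero _
    have h2 : ∀ᵐ t, t ∉ A := measure_eq_zero_iff_ae_notMem.1 h1
    have h3 : ∀ᵐ t, DifferentiableAt ℝ g t := hgL.ae_differentiableAt_real
    filter_upwards [h2, h3] with t ht1 ht2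
    by_contra hcon
    apply ht1
    refine ⟨ht2, fun n hn => hcon ⟨n, ?_⟩⟩
    rw [← hn]
    exact ht2.hasDerivAt
  refine ⟨x, v, A, ?_, ?_, ?_⟩
  · rintro rfl
    apply hAnc
    have : A = ∅ := by
      ext t
      simp only [hA, mem_empty_iff_false, iff_false]
      rintro ⟨-, h⟩
      apply h 0
      have e : g = fun _ => f x := by
        funext t
        simp [hg]
      rw [e]
      simp
    rw [this]
    exact countable_empty
  · have : StandardBorelSpace A := hAm.standardBorel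
    have h1 : ¬ Countable A := fun h => hAnc h.to_set
    have h2 : ¬ Countable ℝ := by
      intro h
      exact Cardinal.not_countable_real (Set.countable_univ_iff.2 h)
    have e := PolishSpace.measurableEquivOfNotCountable h1 h2
    rw [Cardinal.mk_congr e.toEquiv, Cardinal.mk_real]
  · intro n h
    set S := {t ∈ A | f (x + t • v) = h + n • (x + t • v)} with hS
    have hiso : ∀ t ∈ S, ∃ ε > 0, ∀ s ∈ S, |s - t| < ε → s = t := by
      rintro t ⟨⟨hd, hne⟩, hteq⟩
      set u : ℝ → ℝ × ℝ := fun t => g t - (n : ℝ) • (x + t • v) with hu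
      have h1 : HasDerivAt u (deriv g t - (n : ℝ) • v) t := by
        refine hd.hasDerivAt.sub ?_
        have h0 : HasDerivAt (fun t : ℝ => x + t • v) ((1 : ℝ) • v) t :=
          ((hasDerivAt_id t).smul_const v).const_add x
        rw [one_smul] at h0
        exact h0.const_smul (n : ℝ)
      have h2 := h1.eventually_ne (c := h) (sub_ne_zero.2 (hne n))
      rw [Filter.Eventually, mem_nhdsWithin_iff_exists_mem_nhds_inter] at h2
      obtain ⟨W, hW, hW2⟩ := h2
      obtain ⟨ε, hε, hε2⟩ := Metric.mem_nhds_iff.1 hW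
      refine ⟨ε, hε, fun s hs hst => ?_⟩
      by_contra hne'
      have h3 := hW2 ⟨hε2 (by rw [Metric.mem_ball, Real.dist_eq]; exact hst), hne'⟩
      apply h3
      have h4 : f (x + s • v) = h + n • (x + s • v) := hs.2
      simp only [hu, hg]
      rw [h4, ← Int.cast_smul_eq_zsmul ℝ n (x + s • v)]
      abel
    have : DiscreteTopology S := by
      rw [discreteTopology_iff_isOpen_singleton]
      rintro ⟨t, ht⟩
      obtain ⟨ε, hε, h⟩ := hiso t ht
      rw [Metric.isOpen_iff]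
      rintro y rfl
      refine ⟨ε, hε, ?_⟩
      rintro ⟨s, hs⟩ hst
      have := h s hs (by rwa [Metric.mem_ball, Subtype.dist_eq, Real.dist_eq] at hst)
      exact Subtype.ext this
    exact (TopologicalSpace.separableSpace_iff_countable.1 inferInstance : Countable S).to_set

/-- Selection of a new generator. -/
lemma select {f : ℝ × ℝ → ℝ × ℝ} {C : NNReal} (hf : LipschitzWith C f) (hT : ¬ Tame f)
    (H : AddSubgroup (ℝ × ℝ)) (hH : #H < Cardinal.continuum) (Y : Set (ℝ × ℝ))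
    (hY : #Y < Cardinal.continuum) :
    ∃ p : ℝ × ℝ, (∀ (n : ℤ), ∀ h ∈ H, f p ≠ h + n • p) ∧
      (∀ y ∈ Y, ∀ n : ℤ, n ≠ 0 → ∀ h ∈ H, y ≠ h + n • p) := by
  obtain ⟨x, v, A, hv, hA, hc⟩ := escape hf hT
  set B1 : Set ℝ := ⋃ i : ℤ × H, {t ∈ A | f (x + t • v) = i.2 + i.1 • (x + t • v)} with hB1
  set B2 : Set ℝ := ⋃ i : Y × ℤ × H,
    {t | i.2.1 ≠ 0 ∧ (i.1 : ℝ × ℝ) = i.2.2 + i.2.1 • (x + t • v)} with hB2
  have key : ∀ (ι : Type) (S : ι → Set ℝ), (∀ i, (S i).Countable) → #ι < Cardinal.continuum →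
      #(⋃ i, S i : Set ℝ) < Cardinal.continuum := by
    intro ι S hS hι
    have h1 : #(⋃ i, S i : Set ℝ) ≤ Cardinal.sum fun i => #(S i) := Cardinal.mk_iUnion_le_sum_mk
    have h2 : (Cardinal.sum fun i => #(S i)) ≤ Cardinal.sum (fun _ : ι => ℵ₀) :=
      Cardinal.sum_le_sum _ _ fun i => Cardinal.le_aleph0_iff_set_countable.2 (hS i)
    rw [Cardinal.sum_const'] at h2
    refine (h1.trans h2).trans_lt ?_
    exact Cardinal.mul_lt_of_lt Cardinal.aleph0_le_continuum hι Cardinal.aleph0_lt_continuum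
  have hZ : #ℤ < Cardinal.continuum := by
    rw [Cardinal.mk_eq_aleph0]
    exact Cardinal.aleph0_lt_continuum
  have h1 : #B1 < Cardinal.continuum := by
    apply key
    · rintro ⟨n, h⟩
      exact hc n h
    · rw [Cardinal.mk_prod, Cardinal.lift_id, Cardinal.lift_id]
      exact Cardinal.mul_lt_of_lt Cardinal.aleph0_le_continuum hZ hH
  have h2 : #B2 < Cardinal.continuum := by
    apply key
    · rintro ⟨y, n, h⟩
      apply Set.Subsingleton.countable
      rintro t ⟨hn, ht⟩ s ⟨-, hs⟩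
      simp only at hn ht hs
      have e : n • (x + t • v) = n • (x + s • v) := by
        have := ht.symm.trans hs
        exact add_left_cancel this
      rw [← Int.cast_smul_eq_zsmul ℝ, ← Int.cast_smul_eq_zsmul ℝ] at e
      have hn' : (n : ℝ) ≠ 0 := by exact_mod_cast hn
      have e2 := smul_right_injective (ℝ × ℝ) hn' e
      have e3 := add_left_cancel e2
      exact smul_left_injective ℝ hv e3
    · rw [Cardinal.mk_prod, Cardinal.lift_id, Cardinal.lift_id, Cardinal.mk_prod,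
        Cardinal.lift_id, Cardinal.lift_id]
      exact Cardinal.mul_lt_of_lt Cardinal.aleph0_le_continuum hY
        (Cardinal.mul_lt_of_lt Cardinal.aleph0_le_continuum hZ hH)
  have h3 : ¬ A ⊆ B1 ∪ B2 := by
    intro hsub
    have h4 := (Cardinal.mk_le_mk_of_subset hsub).trans (Cardinal.mk_union_le B1 B2)
    rw [hA] at h4
    exact absurd h4 (not_le.2 (Cardinal.add_lt_of_lt Cardinal.aleph0_le_continuum h1 h2))
  obtain ⟨t, htA, ht⟩ := Set.not_subset.1 h3
  refine ⟨x + t • v, fun n h hh heq => ht (Or.inl ?_), fun y hy n hn h hh heq => ht (Or.inr ?_)⟩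
  · exact mem_iUnion.2 ⟨(n, ⟨h, hh⟩), htA, heq⟩
  · exact mem_iUnion.2 ⟨(⟨y, hy⟩, n, ⟨h, hh⟩), hn, heq⟩

/-! ### The recursion -/

/-- The index set of the recursion. -/
abbrev I : Type := (#ℝ).ord.ToType

lemma mk_Iio_I (ξ : I) : #(Iio ξ) < Cardinal.continuum := by
  have := Cardinal.mk_Iio_lt ξ (by simp)
  rw [Cardinal.mk_ord_toType] at this
  exact this.trans_eq Cardinal.mk_real

/-- A countable dense subgroup to start from. -/
def D : Set (ℝ × ℝ) := Set.range fun q : ℚ × ℚ => ((q.1 : ℝ), (q.2 : ℝ))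

lemma D_dense : Dense D := by
  have h1 : DenseRange (Prod.map ((↑) : ℚ → ℝ) ((↑) : ℚ → ℝ)) :=
    Rat.denseRange_cast.prodMap Rat.denseRange_cast
  exact h1

lemma mk_closure' (S : Set (ℝ × ℝ)) (hS : #S < Cardinal.continuum) :
    #(AddSubgroup.closure S) < Cardinal.continuum := by
  set F : List (S × ℤ) → ℝ × ℝ := fun l => (l.map fun p => p.2 • (p.1 : ℝ × ℝ)).sum with hF
  let K : AddSubgroup (ℝ × ℝ) :=
    { carrier := Set.range F
      zero_mem' := ⟨[], by simp [hF]⟩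
      add_mem' := by
        rintro _ _ ⟨l, rfl⟩ ⟨l', rfl⟩
        exact ⟨l ++ l', by simp [hF]⟩
      neg_mem' := by
        rintro _ ⟨l, rfl⟩
        refine ⟨l.map fun p => (p.1, -p.2), ?_⟩
        simp only [hF, List.map_map]
        induction l with
        | nil => simp
        | cons a l ih =>
          rw [List.map_cons, List.sum_cons, ih, List.map_cons, List.sum_cons]
          simp only [Function.comp_apply, neg_smul]
          abel }
  have h1 : AddSubgroup.closure S ≤ K := by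
    rw [AddSubgroup.closure_le]
    intro s hs
    exact ⟨[(⟨s, hs⟩, 1)], by simp [hF]⟩
  have h2 : #(AddSubgroup.closure S) ≤ #(Set.range F) := by
    apply Cardinal.mk_le_mk_of_subset
    exact h1
  refine h2.trans_lt (Cardinal.mk_range_le.trans_lt ?_)
  refine (Cardinal.mk_list_le_max _).trans_lt (max_lt Cardinal.aleph0_lt_continuum ?_)
  rw [Cardinal.mk_prod, Cardinal.lift_id, Cardinal.lift_id]
  refine Cardinal.mul_lt_of_lt Cardinal.aleph0_le_continuum hS ?_
  rw [Cardinal.mk_eq_aleph0]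
  exact Cardinal.aleph0_lt_continuum

lemma mk_closure (S : Set (ℝ × ℝ)) (hS : #S < Cardinal.continuum) :
    #(AddSubgroup.closure (D ∪ S)) < Cardinal.continuum := by
  apply mk_closure'
  refine (Cardinal.mk_union_le D S).trans_lt
    (Cardinal.add_lt_of_lt Cardinal.aleph0_le_continuum ?_ hS)
  have : D.Countable := Set.countable_range _
  exact (Cardinal.le_aleph0_iff_set_countable.2 this).trans_lt Cardinal.aleph0_lt_continuum

section rec

variable (F : I → (ℝ × ℝ → ℝ × ℝ))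

/-- the requirement on a new point -/
def Cand (g : ℝ × ℝ → ℝ × ℝ) (H : AddSubgroup (ℝ × ℝ)) (Y : Set (ℝ × ℝ)) (p : ℝ × ℝ) : Prop :=
  (∀ (n : ℤ), ∀ h ∈ H, g p ≠ h + n • p) ∧
    (∀ y ∈ Y, ∀ n : ℤ, n ≠ 0 → ∀ h ∈ H, y ≠ h + n • p)

/-- the points chosen by the recursion -/
noncomputable def pt : I → ℝ × ℝ :=
  WellFounded.fix (C := fun _ => ℝ × ℝ) (wellFounded_lt (α := I)) fun ξ prev =>
    Classical.epsilon (Cand (F ξ) (AddSubgroup.closure (D ∪ Set.range fun j : Iio ξ => prev j j.2))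
      (Set.range fun j : Iio ξ => F j (prev j j.2)))

lemma pt_eq (ξ : I) : pt F ξ = Classical.epsilon
    (Cand (F ξ) (AddSubgroup.closure (D ∪ Set.range fun j : Iio ξ => pt F j))
      (Set.range fun j : Iio ξ => F j (pt F j))) := by
  unfold pt
  rw [WellFounded.fix_eq]

/-- the group generated before stage `ξ` -/
noncomputable def HH (ξ : I) : AddSubgroup (ℝ × ℝ) :=
  AddSubgroup.closure (D ∪ pt F '' Iio ξ)

lemma pt_spec (hF : ∀ ξ, (∃ C, LipschitzWith C (F ξ)) ∧ ¬ Tame (F ξ)) (ξ : I) :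
    (∀ (n : ℤ), ∀ h ∈ HH F ξ, F ξ (pt F ξ) ≠ h + n • pt F ξ) ∧
      (∀ j < ξ, ∀ n : ℤ, n ≠ 0 → ∀ h ∈ HH F ξ, F j (pt F j) ≠ h + n • pt F ξ) := by
  have h1 : #(HH F ξ) < Cardinal.continuum := by
    apply mk_closure
    exact Cardinal.mk_image_le.trans_lt (mk_Iio_I ξ)
  have h2 : #(Set.range fun j : Iio ξ => F j (pt F j) : Set (ℝ × ℝ)) < Cardinal.continuum :=
    Cardinal.mk_range_le.trans_lt (mk_Iio_I ξ)
  obtain ⟨⟨C, hC⟩, hT⟩ := hF ξ
  have h3 := select hC hT (HH F ξ) h1 _ h2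
  have e1 : HH F ξ = AddSubgroup.closure (D ∪ Set.range fun j : Iio ξ => pt F j) := by
    unfold HH
    rw [Set.image_eq_range]
  have h4 : Cand (F ξ) (HH F ξ) (Set.range fun j : Iio ξ => F j (pt F j)) (pt F ξ) := by
    have h5 := Classical.epsilon_spec (p := Cand (F ξ) (HH F ξ)
      (Set.range fun j : Iio ξ => F j (pt F j))) h3
    have h6 := pt_eq F ξ
    rw [← e1] at h6
    rw [← h6] at h5
    exact h5
  exact ⟨h4.1, fun j hj => h4.2 _ ⟨⟨j, hj⟩, rfl⟩⟩

lemma HH_mono {ξ η : I} (h : ξ ≤ η) : HH F ξ ≤ HH F η := by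
  unfold HH
  apply AddSubgroup.closure_mono
  exact Set.union_subset_union_right _ (Set.image_mono (Iio_subset_Iio h))

/-- the group generated up to and including stage `ξ` -/
noncomputable def HK (ξ : I) : AddSubgroup (ℝ × ℝ) :=
  AddSubgroup.closure (D ∪ pt F '' Iic ξ)

lemma HK_mono {ξ η : I} (h : ξ ≤ η) : HK F ξ ≤ HK F η := by
  unfold HK
  apply AddSubgroup.closure_mono
  exact Set.union_subset_union_right _ (Set.image_mono (Iic_subset_Iic.2 h))

lemma mem_HK {ξ : I} {z : ℝ × ℝ} (hz : z ∈ HK F ξ) :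
    ∃ h ∈ HH F ξ, ∃ n : ℤ, z = h + n • pt F ξ := by
  have e : D ∪ pt F '' Iic ξ = (D ∪ pt F '' Iio ξ) ∪ {pt F ξ} := by
    rw [← Iio_insert, Set.image_insert_eq, Set.union_assoc]
    congr 1
    rw [Set.union_comm]
    rfl
  unfold HK at hz
  rw [e, AddSubgroup.closure_union, AddSubgroup.mem_sup] at hz
  obtain ⟨h, hh, w, hw, rfl⟩ := hz
  obtain ⟨n, rfl⟩ := AddSubgroup.mem_closure_singleton.1 hw
  exact ⟨h, hh, n, rfl⟩

/-- the whole group -/
noncomputable def GG : AddSubgroup (ℝ × ℝ) := AddSubgroup.closure (D ∪ Set.range (pt F))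

lemma mem_of_subset_aux (P : Set I) {z : ℝ × ℝ} (hz : z ∈ AddSubgroup.closure (D ∪ pt F '' P)) :
    z ∈ AddSubgroup.closure D ∨ ∃ k ∈ P, z ∈ HK F k := by
  induction hz using AddSubgroup.closure_induction with
  | mem x hx =>
    rcases hx with hx | ⟨k, hk, rfl⟩
    · exact Or.inl (AddSubgroup.subset_closure hx)
    · exact Or.inr ⟨k, hk, AddSubgroup.subset_closure (Or.inr ⟨k, mem_Iic.2 le_rfl, rfl⟩)⟩
  | zero => exact Or.inl (zero_mem _)
  | neg x _ ih =>
    rcases ih with ih | ⟨k, hk, ih⟩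
    · exact Or.inl (neg_mem ih)
    · exact Or.inr ⟨k, hk, neg_mem ih⟩
  | add x y _ _ ihx ihy =>
    have hD : ∀ k, AddSubgroup.closure D ≤ HK F k := fun k =>
      AddSubgroup.closure_mono Set.subset_union_left
    rcases ihx with ihx | ⟨k, hk, ihx⟩ <;> rcases ihy with ihy | ⟨k', hk', ihy⟩
    · exact Or.inl (add_mem ihx ihy)
    · exact Or.inr ⟨k', hk', add_mem (hD _ ihx) ihy⟩
    · exact Or.inr ⟨k, hk, add_mem ihx (hD _ ihy)⟩
    · rcases le_total k k' with h | h
      · exact Or.inr ⟨k', hk', add_mem (HK_mono F h ihx) ihy⟩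
      · exact Or.inr ⟨k, hk, add_mem ihx (HK_mono F h ihy)⟩

lemma not_mem (hF : ∀ ξ, (∃ C, LipschitzWith C (F ξ)) ∧ ¬ Tame (F ξ)) (j : I) :
    F j (pt F j) ∉ GG F := by
  intro hz
  obtain ⟨s1, s2⟩ := pt_spec F hF j
  have hD : AddSubgroup.closure D ≤ HH F j := AddSubgroup.closure_mono Set.subset_union_left
  have hDn : F j (pt F j) ∉ AddSubgroup.closure D := fun h =>
    s1 0 _ (hD h) (by rw [zero_smul, add_zero])
  have hKn : F j (pt F j) ∉ HK F j := by
    intro h
    obtain ⟨h, hh, n, e⟩ := mem_HK F h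
    exact s1 n h hh e
  have key : ∀ k, F j (pt F j) ∉ HK F k := by
    intro k
    induction k using WellFoundedLT.induction with
    | ind k ih =>
      intro hk
      rcases le_or_gt k j with hkj | hkj
      · exact hKn (HK_mono F hkj hk)
      · obtain ⟨h, hh, n, e⟩ := mem_HK F hk
        by_cases hn : n = 0
        · rw [hn, zero_smul, add_zero] at e
          rw [← e] at hh
          rcases mem_of_subset_aux F (Iio k) hh with h1 | ⟨m, hm, h1⟩
          · exact hDn h1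
          · exact ih m hm h1
        · exact (pt_spec F hF k).2 j hkj n hn h hh e
  unfold GG at hz
  rw [← Set.image_univ] at hz
  rcases mem_of_subset_aux F univ hz with h1 | ⟨m, -, h1⟩
  · exact hDn h1
  · exact key m h1

lemma GG_dense : Dense (GG F : Set (ℝ × ℝ)) :=
  D_dense.mono fun _ hx => AddSubgroup.subset_closure (Or.inl hx)

lemma pt_mem (j : I) : pt F j ∈ GG F := AddSubgroup.subset_closure (Or.inr ⟨j, rfl⟩)

end rec

/-! ### Enumeration -/

/-- the maps to be killed -/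
abbrev Bad : Type := {f : ℝ × ℝ → ℝ × ℝ // (∃ C, LipschitzWith C f) ∧ ¬ Tame f}

lemma mk_Bad : #Bad ≤ Cardinal.continuum := by
  let R : Bad → (ℚ × ℚ → ℝ × ℝ) := fun f q => f.1 ((q.1 : ℝ), (q.2 : ℝ))
  have hR : Function.Injective R := by
    rintro ⟨f, ⟨C, hC⟩, hf⟩ ⟨g, ⟨C', hC'⟩, hg⟩ h
    apply Subtype.ext
    refine Continuous.ext_on D_dense hC.continuous hC'.continuous ?_
    rintro _ ⟨q, rfl⟩
    exact congrFun h q
  refine (Cardinal.mk_le_of_injective hR).trans ?_
  have e1 : #(ℝ × ℝ) = Cardinal.continuum := by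
    rw [Cardinal.mk_prod, Cardinal.lift_id, Cardinal.mk_real, Cardinal.continuum_mul_self]
  rw [← Cardinal.power_def, e1, Cardinal.mk_eq_aleph0 (ℚ × ℚ), Cardinal.continuum_power_aleph0]

instance : Nonempty Bad := by
  refine ⟨⟨fun x => (1 / 2 : ℝ) • x, ⟨1, ?_⟩, ?_⟩⟩
  · apply LipschitzWith.of_dist_le_mul
    intro x y
    rw [dist_eq_norm, ← smul_sub, norm_smul, ← dist_eq_norm]
    simp only [NNReal.coe_one, one_mul]
    have : ‖(1 / 2 : ℝ)‖ = 1 / 2 := by rw [Real.norm_eq_abs, abs_of_pos (by norm_num)]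
    rw [this]
    have := dist_nonneg (x := x) (y := y)
    linarith
  · intro hT
    have hL : LipschitzWith 1 (fun x : ℝ × ℝ => (1 / 2 : ℝ) • x) := by
      apply LipschitzWith.of_dist_le_mul
      intro x y
      rw [dist_eq_norm, ← smul_sub, norm_smul, ← dist_eq_norm]
      simp only [NNReal.coe_one, one_mul]
      have : ‖(1 / 2 : ℝ)‖ = 1 / 2 := by rw [Real.norm_eq_abs, abs_of_pos (by norm_num)]
      rw [this]
      have := dist_nonneg (x := x) (y := y)
      linarith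
    obtain ⟨n, d, h⟩ := tame_affine hL hT
    have h0 := congrArg Prod.fst (h 0)
    have h1 := congrArg Prod.fst (h (1, 0))
    simp at h0 h1
    have h2 : (2⁻¹ : ℝ) = n := by rw [h1, ← h0]; ring
    have h3 : (2 * n : ℝ) = 1 := by rw [← h2]; norm_num
    have h4 : (2 * n : ℤ) = 1 := by exact_mod_cast h3
    omega

lemma exists_enum : ∃ F : I → (ℝ × ℝ → ℝ × ℝ),
    (∀ ξ, (∃ C, LipschitzWith C (F ξ)) ∧ ¬ Tame (F ξ)) ∧
    ∀ f : ℝ × ℝ → ℝ × ℝ, (∃ C, LipschitzWith C f) → ¬ Tame f → ∃ ξ, F ξ = f := by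
  have h1 : #Bad ≤ #I := by
    rw [Cardinal.mk_ord_toType, Cardinal.mk_real]
    exact mk_Bad
  obtain ⟨e⟩ := h1
  refine ⟨fun ξ => (Function.invFun e ξ).1, fun ξ => (Function.invFun e ξ).2, fun f h1 h2 => ?_⟩
  refine ⟨e ⟨f, h1, h2⟩, ?_⟩
  have h3 := Function.leftInverse_invFun e.injective (⟨f, h1, h2⟩ : Bad)
  exact congrArg Subtype.val h3

lemma d1_le (u v : ℝ × ℝ) : d1 u v ≤ 2 * dist u v := by
  unfold d1
  rw [Prod.dist_eq, Real.dist_eq, Real.dist_eq]
  have h1 := le_max_left |u.1 - v.1| |u.2 - v.2|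
  have h2 := le_max_right |u.1 - v.1| |u.2 - v.2|
  linarith

/-- **Main theorem.** The plane has a dense subgroup `G` such that every map `G → G` which is
non-expansive for the `ℓ₁` metric is constant, a translation or a point reflection; in
particular `(G, d₁)` is plastic: every non-expansive bijection of it is an isometry. -/
theorem result : ∃ G : AddSubgroup (ℝ × ℝ), Dense (G : Set (ℝ × ℝ)) ∧
    (∀ f : G → G, Function.Bijective f → (∀ u v : G, d1 (f u) (f v) ≤ d1 u v) →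
      ∀ u v : G, d1 (f u) (f v) = d1 u v) ∧
    (∀ f : G → G, (∀ u v : G, d1 (f u) (f v) ≤ d1 u v) →
      (∃ c : G, ∀ u, f u = c) ∨ (∃ c : G, ∀ u, f u = u + c) ∨ (∃ c : G, ∀ u, f u = c - u)) := by
  obtain ⟨F, hF, hsur⟩ := exists_enum
  have main : ∀ f : GG F → GG F, (∀ u v : GG F, d1 (f u) (f v) ≤ d1 u v) →
      (∃ c : GG F, ∀ u, f u = c) ∨ (∃ c : GG F, ∀ u, f u = u + c) ∨
        (∃ c : GG F, ∀ u, f u = c - u) := by
    intro f hf
    classical
    -- extend `f`
    set f1 : ℝ × ℝ → ℝ := fun x => if h : x ∈ GG F then (f ⟨x, h⟩ : ℝ × ℝ).1 else 0 with hf1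
    set f2 : ℝ × ℝ → ℝ := fun x => if h : x ∈ GG F then (f ⟨x, h⟩ : ℝ × ℝ).2 else 0 with hf2
    have l1 : LipschitzOnWith 2 f1 (GG F : Set (ℝ × ℝ)) := by
      apply LipschitzOnWith.of_dist_le_mul
      intro x hx y hy
      have h1 := (hf ⟨x, hx⟩ ⟨y, hy⟩).trans (d1_le _ _)
      simp only [hf1]
      rw [dif_pos (show x ∈ GG F from hx), dif_pos (show y ∈ GG F from hy), Real.dist_eq]
      refine le_trans ?_ h1
      unfold d1
      have := abs_nonneg ((f ⟨x, hx⟩ : ℝ × ℝ).2 - (f ⟨y, hy⟩ : ℝ × ℝ).2)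
      linarith
    have l2 : LipschitzOnWith 2 f2 (GG F : Set (ℝ × ℝ)) := by
      apply LipschitzOnWith.of_dist_le_mul
      intro x hx y hy
      have h1 := (hf ⟨x, hx⟩ ⟨y, hy⟩).trans (d1_le _ _)
      simp only [hf2]
      rw [dif_pos (show x ∈ GG F from hx), dif_pos (show y ∈ GG F from hy), Real.dist_eq]
      refine le_trans ?_ h1
      unfold d1
      have := abs_nonneg ((f ⟨x, hx⟩ : ℝ × ℝ).1 - (f ⟨y, hy⟩ : ℝ × ℝ).1)
      linarith
    obtain ⟨g1, hg1, e1⟩ := l1.extend_real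
    obtain ⟨g2, hg2, e2⟩ := l2.extend_real
    set g : ℝ × ℝ → ℝ × ℝ := fun x => (g1 x, g2 x) with hg
    have hgL : LipschitzWith (max 2 2) g := hg1.prodMk hg2
    have hgf : ∀ x : GG F, g x = f x := by
      intro x
      have a1 : f1 x = g1 x := e1 x.2
      have a2 : f2 x = g2 x := e2 x.2
      have b1 : f1 x = (f x : ℝ × ℝ).1 := by
        simp only [hf1]; rw [dif_pos x.2]
      have b2 : f2 x = (f x : ℝ × ℝ).2 := by
        simp only [hf2]; rw [dif_pos x.2]
      simp only [hg]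
      ext
      · exact a1.symm.trans b1
      · exact a2.symm.trans b2
    have hT : Tame g := by
      by_contra hT
      obtain ⟨ξ, hξ⟩ := hsur g ⟨_, hgL⟩ hT
      apply not_mem F hF ξ
      rw [hξ]
      have := hgf ⟨pt F ξ, pt_mem F ξ⟩
      simp only at this
      rw [this]
      exact (f _).2
    obtain ⟨n, d, hnd⟩ := tame_affine hgL hT
    have hd : d ∈ GG F := by
      have h0 := hgf 0
      rw [hnd] at h0
      simp only [ZeroMemClass.coe_zero, smul_zero, zero_add] at h0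
      rw [h0]
      exact (f 0).2
    have hne : ∀ u v : GG F, |(n : ℝ)| * d1 u v ≤ d1 u v := by
      intro u v
      have h1 := hf u v
      rw [← hgf u, ← hgf v, hnd, hnd] at h1
      refine le_trans (le_of_eq ?_) h1
      unfold d1
      simp only [Prod.fst_add, Prod.snd_add, Prod.smul_fst, Prod.smul_snd, smul_eq_mul]
      rw [mul_add, ← abs_mul, ← abs_mul]
      congr 2 <;> ring
    have hn : |(n : ℝ)| ≤ 1 := by
      have hm : ((1 : ℝ), (0 : ℝ)) ∈ GG F :=
        AddSubgroup.subset_closure (Or.inl ⟨(1, 0), by simp⟩)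
      have := hne ⟨_, hm⟩ 0
      have e : d1 ((⟨((1 : ℝ), (0 : ℝ)), hm⟩ : GG F) : ℝ × ℝ) ((0 : GG F) : ℝ × ℝ) = 1 := by
        simp [d1]
      rw [e, mul_one] at this
      exact this
    have hn' : n = 0 ∨ n = 1 ∨ n = -1 := by
      have h1 : |n| ≤ 1 := by exact_mod_cast hn
      have := abs_le.1 h1
      omega
    rcases hn' with rfl | rfl | rfl
    · refine Or.inl ⟨⟨d, hd⟩, fun u => ?_⟩
      apply Subtype.ext
      rw [← hgf u, hnd]
      simp
    · refine Or.inr (Or.inl ⟨⟨d, hd⟩, fun u => ?_⟩)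
      apply Subtype.ext
      rw [← hgf u, hnd]
      simp
    · refine Or.inr (Or.inr ⟨⟨d, hd⟩, fun u => ?_⟩)
      apply Subtype.ext
      rw [← hgf u, hnd]
      simp [sub_eq_add_neg, add_comm]
  refine ⟨GG F, GG_dense F, fun f hb hf u v => ?_, main⟩
  rcases main f hf with ⟨c, hc⟩ | ⟨c, hc⟩ | ⟨c, hc⟩
  · have hm : ((1 : ℝ), (0 : ℝ)) ∈ GG F :=
      AddSubgroup.subset_closure (Or.inl ⟨(1, 0), by simp⟩)
    have h1 : f ⟨_, hm⟩ = f 0 := by rw [hc, hc]
    have h2 := congrArg (fun z : GG F => (z : ℝ × ℝ).1) (hb.1 h1)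
    simp at h2
  · rw [hc, hc]
    simp [d1]
  · rw [hc, hc]
    simp only [d1, AddSubgroup.coe_sub, Prod.fst_sub, Prod.snd_sub]
    rw [sub_sub_sub_cancel_left, sub_sub_sub_cancel_left, abs_sub_comm, abs_sub_comm (v : ℝ × ℝ).2]

end Pool.Agent.Results.MP_f81d0d_gt.LOnePlane
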